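import Mathlib

/-!
# MP_7e9539_an : ternary hereditary subspaces of Hilbert modules are linking hereditary
-/

open Filter Topology Set

namespace Pool.Agent.Results.MP_7e9539_an.TernaryIsLinking

universe u v

/-- A (right) Hilbert `B`-module: a complete normed space `E` with a right action `act x b = x b`
of the C*-algebra `B` and a `B`-valued inner product `ip`, linear in the second variable. -/
class HilbertModule (B : Type u) (E : Type v) [NonUnitalCStarAlgebra B] [PartialOrder B]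
    [StarOrderedRing B] [NormedAddCommGroup E] [NormedSpace ℂ E] [CompleteSpace E] where
  act : E → B → E
  ip : E → E → B
  act_add_left : ∀ x y b, act (x + y) b = act x b + act y b
  act_add_right : ∀ x a b, act x (a + b) = act x a + act x b
  act_smul_left : ∀ (c : ℂ) x b, act (c • x) b = c • act x b
  act_smul_right : ∀ (c : ℂ) x b, act x (c • b) = c • act x b
  act_act : ∀ x a b, act (act x a) b = act x (a * b)
  ip_add_right : ∀ x y z, ip x (y + z) = ip x y + ip x z
  ip_smul_right : ∀ (c : ℂ) x y, ip x (c • y) = c • ip x y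
  ip_act_right : ∀ x y b, ip x (act y b) = ip x y * b
  star_ip : ∀ x y, star (ip x y) = ip y x
  ip_self_nonneg : ∀ x, 0 ≤ ip x x
  norm_sq : ∀ x, ‖x‖ ^ 2 = ‖ip x x‖

open HilbertModule

section Basic

variable {B : Type u} {E : Type v} [NonUnitalCStarAlgebra B] [PartialOrder B]
    [StarOrderedRing B] [NormedAddCommGroup E] [NormedSpace ℂ E] [CompleteSpace E]
    [HilbertModule B E]

lemma ip_add_left (x y z : E) : (ip (x + y) z : B) = ip x z + ip y z := by
  rw [← star_ip, ip_add_right, star_add, star_ip, star_ip]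

lemma ip_smul_left (c : ℂ) (x y : E) : (ip (c • x) y : B) = star c • ip x y := by
  rw [← star_ip, ip_smul_right, star_smul, star_ip]

lemma ip_act_left (x y : E) (b : B) : (ip (act x b) y : B) = star b * ip x y := by
  rw [← star_ip, ip_act_right, star_mul, star_ip]

lemma ip_zero_right (x : E) : (ip x 0 : B) = 0 := by
  have := ip_smul_right (B := B) 0 x 0
  simpa using this

lemma ip_zero_left (x : E) : (ip 0 x : B) = 0 := by
  rw [← star_ip, ip_zero_right, star_zero]

lemma ip_neg_right (x y : E) : (ip x (-y) : B) = - ip x y := by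
  have := ip_smul_right (B := B) (-1) x y
  simpa using this

lemma ip_neg_left (x y : E) : (ip (-x) y : B) = - ip x y := by
  rw [← star_ip, ip_neg_right, star_neg, star_ip]

lemma ip_sub_right (x y z : E) : (ip x (y - z) : B) = ip x y - ip x z := by
  rw [sub_eq_add_neg, ip_add_right, ip_neg_right, ← sub_eq_add_neg]

lemma ip_sub_left (x y z : E) : (ip (x - y) z : B) = ip x z - ip y z := by
  rw [sub_eq_add_neg, ip_add_left, ip_neg_left, ← sub_eq_add_neg]

lemma eq_of_ip (x y : E) (h : ∀ z : E, (ip z x : B) = ip z y) : x = y := by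
  have h1 : (ip (x - y) (x - y) : B) = 0 := by
    rw [ip_sub_right, h, sub_self]
  have h2 := norm_sq (B := B) (x - y)
  rw [h1, norm_zero] at h2
  have : ‖x - y‖ = 0 := by simpa using h2
  exact sub_eq_zero.1 (norm_eq_zero.1 this)

lemma ip_swap_le (x y : E) : (ip y x * ip x y : B) ≤ ‖x‖ ^ 2 • (ip y y : B) := by
  by_cases hx : x = 0
  · subst hx
    rw [ip_zero_right, ip_zero_left]
    simp
  have hpos : 0 < ‖x‖ ^ 2 := by positivity
  set a : B := ip x y with ha
  have hya : (ip y x : B) = star a := by rw [ha, star_ip]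
  have h1 : (0 : B) ≤ ip (act x a - ((‖x‖ ^ 2 : ℝ) : ℂ) • y) (act x a - ((‖x‖ ^ 2 : ℝ) : ℂ) • y) :=
    ip_self_nonneg _
  have h2 : (ip (act x a - ((‖x‖ ^ 2 : ℝ) : ℂ) • y) (act x a - ((‖x‖ ^ 2 : ℝ) : ℂ) • y) : B) =
      star a * ip x x * a - ‖x‖ ^ 2 • (star a * a) - ‖x‖ ^ 2 • (star a * a) +
        ‖x‖ ^ 2 • (‖x‖ ^ 2 • (ip y y : B)) := by
    simp only [ip_sub_left, ip_sub_right, ip_act_left, ip_act_right, ip_smul_left, ip_smul_right,
      hya, ← ha]
    have hs : star (((‖x‖ ^ 2 : ℝ)) : ℂ) = ((‖x‖ ^ 2 : ℝ) : ℂ) := by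
      rw [Complex.star_def, Complex.conj_ofReal]
    rw [hs]
    simp only [Complex.coe_smul, mul_smul_comm, smul_mul_assoc, smul_sub, sub_mul, mul_assoc]
    abel
  rw [h2] at h1
  have h3 : star a * ip x x * a ≤ ‖(ip x x : B)‖ • (star a * a) :=
    CStarAlgebra.star_left_conjugate_le_norm_smul (hb := star_ip x x)
  rw [← norm_sq] at h3
  have h4 : (0 : B) ≤ ‖x‖ ^ 2 • (‖x‖ ^ 2 • (ip y y : B)) - ‖x‖ ^ 2 • (star a * a) := by
    calc (0 : B) ≤ star a * ip x x * a - ‖x‖ ^ 2 • (star a * a) - ‖x‖ ^ 2 • (star a * a) +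
        ‖x‖ ^ 2 • (‖x‖ ^ 2 • (ip y y : B)) := h1
      _ ≤ ‖x‖ ^ 2 • (star a * a) - ‖x‖ ^ 2 • (star a * a) - ‖x‖ ^ 2 • (star a * a) +
        ‖x‖ ^ 2 • (‖x‖ ^ 2 • (ip y y : B)) := by gcongr
      _ = _ := by abel
  rw [sub_nonneg] at h4
  rw [hya]
  exact (smul_le_smul_iff_of_pos_left hpos).1 h4

lemma norm_ip_le (x y : E) : ‖(ip x y : B)‖ ≤ ‖x‖ * ‖y‖ := by
  have h1 : ‖(ip x y : B)‖ ^ 2 ≤ (‖x‖ * ‖y‖) ^ 2 := by
    calc ‖(ip x y : B)‖ ^ 2 = ‖(star (ip x y) * ip x y : B)‖ := by
          rw [CStarRing.norm_star_mul_self, pow_two]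
      _ = ‖(ip y x * ip x y : B)‖ := by rw [star_ip]
      _ ≤ ‖‖x‖ ^ 2 • (ip y y : B)‖ := by
          refine CStarAlgebra.norm_le_norm_of_nonneg_of_le ?_ (ip_swap_le x y)
          rw [← star_ip x y]
          exact star_mul_self_nonneg _
      _ = (‖x‖ * ‖y‖) ^ 2 := by
          rw [norm_smul, ← norm_sq, mul_pow]
          simp
  exact (pow_le_pow_iff_left₀ (norm_nonneg _) (by positivity) (by simp)).1 h1

lemma norm_act_le (x : E) (b : B) : ‖act x b‖ ≤ ‖x‖ * ‖b‖ := by
  have h1 : ‖act x b‖ ^ 2 ≤ (‖x‖ * ‖b‖) ^ 2 := by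
    rw [norm_sq (B := B), ip_act_left, ip_act_right, ← mul_assoc]
    calc ‖star b * (ip x x : B) * b‖ ≤ ‖star b * (ip x x : B)‖ * ‖b‖ := norm_mul_le _ _
      _ ≤ (‖star b‖ * ‖(ip x x : B)‖) * ‖b‖ := by gcongr; exact norm_mul_le _ _
      _ = (‖x‖ * ‖b‖) ^ 2 := by rw [norm_star, ← norm_sq]; ring
  exact (pow_le_pow_iff_left₀ (norm_nonneg _) (by positivity) (by simp)).1 h1

/-- the inner product as a continuous linear map in the second variable -/
noncomputable def ipR (x : E) : E →L[ℂ] B :=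
  LinearMap.mkContinuous
    { toFun := fun y => ip x y
      map_add' := fun y z => ip_add_right x y z
      map_smul' := fun c y => ip_smul_right c x y } ‖x‖ (fun y => norm_ip_le x y)

@[simp] lemma ipR_apply (x y : E) : (ipR x y : B) = ip x y := rfl

lemma continuous_ip_left (y : E) : Continuous (fun x : E => (ip x y : B)) := by
  have : (fun x : E => (ip x y : B)) = fun x => star (ipR y x : B) := by
    funext x
    rw [ipR_apply, star_ip]
  rw [this]
  exact (ipR (B := B) y).continuous.star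

/-- the right action by `b` -/
noncomputable def actR (b : B) : E →L[ℂ] E :=
  LinearMap.mkContinuous
    { toFun := fun x => act x b
      map_add' := fun x y => act_add_left x y b
      map_smul' := fun c x => act_smul_left c x b } ‖b‖
    (fun x => by rw [mul_comm]; exact norm_act_le x b)

@[simp] lemma actR_apply (x : E) (b : B) : actR b x = act x b := rfl

/-- the action on `x` -/
noncomputable def actL (x : E) : B →L[ℂ] E :=
  LinearMap.mkContinuous
    { toFun := fun b => act x b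
      map_add' := fun a b => act_add_right x a b
      map_smul' := fun c b => act_smul_right c x b } ‖x‖
    (fun b => norm_act_le x b)

@[simp] lemma actL_apply (x : E) (b : B) : actL x b = act x b := rfl

end Basic

section Defs

variable (B : Type u) {E : Type v} [NonUnitalCStarAlgebra B] [PartialOrder B]
    [StarOrderedRing B] [NormedAddCommGroup E] [NormedSpace ℂ E] [CompleteSpace E]
    [HilbertModule B E]

/-- The rank-one operator `x y^* : z ↦ x ⟨y, z⟩`. -/
noncomputable def rankOne (x y : E) : E →L[ℂ] E := (actL (B := B) x).comp (ipR y)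

/-- `F` is a closed ternary subspace of `E`. -/
def IsTernary (F : Submodule ℂ E) : Prop :=
  IsClosed (F : Set E) ∧ ∀ x ∈ F, ∀ y ∈ F, ∀ z ∈ F, act x (ip y z : B) ∈ F

/-- `B_F`, the closed linear span of `⟨F, F⟩` in `B`. -/
noncomputable def innerSpan (F : Submodule ℂ E) : Submodule ℂ B :=
  (Submodule.span ℂ {b : B | ∃ x ∈ F, ∃ y ∈ F, b = ip x y}).topologicalClosure

/-- `K(F)`, the closed linear span of the rank-one operators `x y^*` on `E` with `x, y ∈ F`. -/
noncomputable def compacts (F : Submodule ℂ E) : Submodule ℂ (E →L[ℂ] E) :=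
  (Submodule.span ℂ {T : E →L[ℂ] E | ∃ x ∈ F, ∃ y ∈ F, T = rankOne B x y}).topologicalClosure

/-- The reduced linking algebra `L_F` of `F`, as a set of operators on `B_E ⊕ E`: the operators
given by the matrices `[[b, x^*], [z, k]]` with `b ∈ B_F`, `x, z ∈ F`, `k ∈ K(F)`. For `F = ⊤` it is
the reduced linking algebra `L_E`. -/
def linking (F : Submodule ℂ E) :
    Set (innerSpan B (⊤ : Submodule ℂ E) × E → innerSpan B (⊤ : Submodule ℂ E) × E) :=
  {T | ∃ b ∈ innerSpan B F, ∃ x ∈ F, ∃ z ∈ F, ∃ k ∈ compacts B F,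
    ∀ p : innerSpan B (⊤ : Submodule ℂ E) × E,
      ((T p).1 : B) = b * (p.1 : B) + ip x p.2 ∧ (T p).2 = act z (p.1 : B) + k p.2}

/-- `F` is ternary hereditary in `E`: `F ⟨E, F⟩ ⊆ F`. -/
def TernaryHereditary (F : Submodule ℂ E) : Prop :=
  ∀ x ∈ F, ∀ y : E, ∀ z ∈ F, act x (ip y z : B) ∈ F

/-- `F` is linking hereditary in `E`: `L_F L_E L_F ⊆ L_F`. -/
def LinkingHereditary (F : Submodule ℂ E) : Prop :=
  ∀ S ∈ linking B F, ∀ T ∈ linking B (⊤ : Submodule ℂ E), ∀ R ∈ linking B F,
    S ∘ T ∘ R ∈ linking B F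

end Defs

section Proof

variable {B : Type u} {E : Type v} [NonUnitalCStarAlgebra B] [PartialOrder B]
    [StarOrderedRing B] [NormedAddCommGroup E] [NormedSpace ℂ E] [CompleteSpace E]
    [HilbertModule B E]

@[simp] lemma rankOne_apply (x y z : E) : rankOne B x y z = act x (ip y z : B) := rfl

/-- Closed-span induction. -/
lemma closed_ind {X Y : Type*} [NormedAddCommGroup X] [NormedSpace ℂ X] [NormedAddCommGroup Y]
    [NormedSpace ℂ Y] {S : Set X} (G : Submodule ℂ Y) (hG : IsClosed (G : Set Y)) (Φ : X → Y)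
    (hc : Continuous Φ) (h0 : Φ 0 = 0) (hadd : ∀ a b, Φ (a + b) = Φ a + Φ b)
    (hsmul : ∀ (c : ℂ) a, ∃ c' : ℂ, Φ (c • a) = c' • Φ a)
    (hS : ∀ s ∈ S, Φ s ∈ G) {x : X} (hx : x ∈ (Submodule.span ℂ S).topologicalClosure) :
    Φ x ∈ G := by
  have h1 : ∀ y ∈ Submodule.span ℂ S, Φ y ∈ G := by
    intro y hy
    induction hy using Submodule.span_induction with
    | mem s hs => exact hS s hs
    | zero => rw [h0]; exact G.zero_mem
    | add a b _ _ ha hb => rw [hadd]; exact G.add_mem ha hb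
    | smul c a _ ha =>
      obtain ⟨c', hc'⟩ := hsmul c a
      rw [hc']; exact G.smul_mem _ ha
  have h2 : closure (Submodule.span ℂ S : Set X) ⊆ Φ ⁻¹' (G : Set Y) :=
    closure_minimal h1 (hG.preimage hc)
  exact h2 hx

/-- Version for continuous linear maps. -/
lemma closed_ind' {X Y : Type*} [NormedAddCommGroup X] [NormedSpace ℂ X] [NormedAddCommGroup Y]
    [NormedSpace ℂ Y] {S : Set X} (G : Submodule ℂ Y) (hG : IsClosed (G : Set Y)) (Φ : X →L[ℂ] Y)
    (hS : ∀ s ∈ S, Φ s ∈ G) {x : X} (hx : x ∈ (Submodule.span ℂ S).topologicalClosure) :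
    Φ x ∈ G :=
  closed_ind G hG Φ Φ.continuous (map_zero Φ) (map_add Φ) (fun c a => ⟨c, map_smul Φ c a⟩) hS hx

lemma isClosed_innerSpan (F : Submodule ℂ E) : IsClosed (innerSpan B F : Set B) :=
  Submodule.isClosed_topologicalClosure _

lemma isClosed_compacts (F : Submodule ℂ E) : IsClosed (compacts B F : Set (E →L[ℂ] E)) :=
  Submodule.isClosed_topologicalClosure _

lemma ip_mem {F : Submodule ℂ E} {x y : E} (hx : x ∈ F) (hy : y ∈ F) :
    (ip x y : B) ∈ innerSpan B F :=
  Submodule.le_topologicalClosure _ (Submodule.subset_span ⟨x, hx, y, hy, rfl⟩)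

lemma rankOne_mem {F : Submodule ℂ E} {x y : E} (hx : x ∈ F) (hy : y ∈ F) :
    rankOne B x y ∈ compacts B F :=
  Submodule.le_topologicalClosure _ (Submodule.subset_span ⟨x, hx, y, hy, rfl⟩)

lemma star_mem_innerSpan {F : Submodule ℂ E} {b : B} (hb : b ∈ innerSpan B F) :
    star b ∈ innerSpan B F := by
  refine closed_ind (innerSpan B F) (isClosed_innerSpan F) (fun b : B => star b) continuous_star
    (star_zero _) (fun a b => star_add a b) (fun c a => ⟨star c, star_smul c a⟩) ?_ hb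
  rintro _ ⟨x, hx, y, hy, rfl⟩
  show star (ip x y : B) ∈ _
  rw [star_ip]
  exact ip_mem hy hx

/-- Existence of adjoints in `K(F)`. -/
lemma exists_adjoint {F : Submodule ℂ E} {k : E →L[ℂ] E} (hk : k ∈ compacts B F) :
    ∃ k' ∈ compacts B F, ∀ x y : E, (ip (k x) y : B) = ip x (k' y) := by
  -- norm control of adjoints
  have hnorm : ∀ (a a' : E →L[ℂ] E), (∀ x y : E, (ip (a x) y : B) = ip x (a' y)) →
      ‖a'‖ ≤ ‖a‖ := by
    intro a a' h
    refine ContinuousLinearMap.opNorm_le_bound _ (norm_nonneg _) (fun y => ?_)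
    by_cases hy : a' y = 0
    · rw [hy, norm_zero]; positivity
    have h1 : ‖a' y‖ ^ 2 ≤ (‖a‖ * ‖y‖) * ‖a' y‖ := by
      rw [norm_sq (B := B), ← h]
      refine (norm_ip_le _ _).trans ?_
      calc ‖a (a' y)‖ * ‖y‖ ≤ (‖a‖ * ‖a' y‖) * ‖y‖ := by gcongr; exact a.le_opNorm _
        _ = (‖a‖ * ‖y‖) * ‖a' y‖ := by ring
    have h2 : 0 < ‖a' y‖ := norm_pos_iff.2 hy
    rw [pow_two] at h1
    exact le_of_mul_le_mul_right h1 h2
  -- span level
  have hspan : ∀ k ∈ Submodule.span ℂ {T : E →L[ℂ] E | ∃ x ∈ F, ∃ y ∈ F, T = rankOne B x y},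
      ∃ k' ∈ compacts B F, ∀ x y : E, (ip (k x) y : B) = ip x (k' y) := by
    intro k hk
    induction hk using Submodule.span_induction with
    | mem s hs =>
      obtain ⟨p, hp, q, hq, rfl⟩ := hs
      refine ⟨rankOne B q p, rankOne_mem hq hp, fun x y => ?_⟩
      rw [rankOne_apply, rankOne_apply, ip_act_left, ip_act_right, star_ip]
    | zero =>
      refine ⟨0, Submodule.zero_mem _, fun x y => ?_⟩
      simp [ip_zero_left, ip_zero_right]
    | add a b _ _ ha hb =>
      obtain ⟨a', ha', h1⟩ := ha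
      obtain ⟨b', hb', h2⟩ := hb
      refine ⟨a' + b', Submodule.add_mem _ ha' hb', fun x y => ?_⟩
      rw [ContinuousLinearMap.add_apply, ContinuousLinearMap.add_apply, ip_add_left, ip_add_right,
        h1, h2]
    | smul c a _ ha =>
      obtain ⟨a', ha', h1⟩ := ha
      refine ⟨star c • a', Submodule.smul_mem _ _ ha', fun x y => ?_⟩
      rw [ContinuousLinearMap.smul_apply, ContinuousLinearMap.smul_apply, ip_smul_left,
        ip_smul_right, h1]
  -- closure
  have hk' : k ∈ closure ((Submodule.span ℂ {T : E →L[ℂ] E | ∃ x ∈ F, ∃ y ∈ F,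
      T = rankOne B x y} : Submodule ℂ (E →L[ℂ] E)) : Set (E →L[ℂ] E)) := hk
  obtain ⟨s, hs, hlim⟩ := mem_closure_iff_seq_limit.1 hk'
  choose t ht htt using fun n => hspan (s n) (hs n)
  have hdiff : ∀ m n, ‖t m - t n‖ ≤ ‖s m - s n‖ := by
    intro m n
    refine hnorm _ _ (fun x y => ?_)
    rw [ContinuousLinearMap.sub_apply, ContinuousLinearMap.sub_apply, ip_sub_left, ip_sub_right,
      htt, htt]
  have hcau : CauchySeq t := by
    have h1 := hlim.cauchySeq
    rw [Metric.cauchySeq_iff'] at h1 ⊢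
    intro ε hε
    obtain ⟨N, hN⟩ := h1 ε hε
    refine ⟨N, fun n hn => ?_⟩
    rw [dist_eq_norm]
    exact (hdiff n N).trans_lt (by rw [← dist_eq_norm]; exact hN n hn)
  obtain ⟨k', hk'⟩ := cauchySeq_tendsto_of_complete hcau
  refine ⟨k', (isClosed_compacts F).mem_of_tendsto hk' (Eventually.of_forall ht), fun x y => ?_⟩
  have e1 : Tendsto (fun n => (ip (s n x) y : B)) atTop (𝓝 (ip (k x) y)) := by
    have h1 : Tendsto (fun n => s n x) atTop (𝓝 (k x)) :=
      ((ContinuousLinearMap.apply ℂ E x).continuous.tendsto k).comp hlim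
    exact ((continuous_ip_left (B := B) y).tendsto (k x)).comp h1
  have e2 : Tendsto (fun n => (ip x (t n y) : B)) atTop (𝓝 (ip x (k' y))) := by
    have h1 : Tendsto (fun n => t n y) atTop (𝓝 (k' y)) :=
      ((ContinuousLinearMap.apply ℂ E y).continuous.tendsto k').comp hk'
    exact ((ipR (B := B) x).continuous.tendsto (k' y)).comp h1
  refine tendsto_nhds_unique e1 ?_
  simp_rw [htt]
  exact e2

/-- operators in `K(F)` are `B`-linear -/
lemma compacts_act {F : Submodule ℂ E} {k : E →L[ℂ] E} (hk : k ∈ compacts B F) (x : E) (b : B) :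
    k (act x b) = act (k x) b := by
  obtain ⟨k', hk', h⟩ := exists_adjoint hk
  obtain ⟨k'', hk'', h'⟩ := exists_adjoint hk'
  have h2 : ∀ x y : E, (ip x (k y) : B) = ip (k' x) y := by
    intro x y
    rw [← star_ip, h, star_ip]
  refine eq_of_ip (B := B) _ _ (fun z => ?_)
  rw [h2, ip_act_right, ip_act_right, h2]

lemma scalar_bound {t : ℝ} (h0 : 0 ≤ t) (h1 : t ≤ 1) (m : ℕ) (hm : 0 < m) :
    t * (1 - t) ^ m ≤ 1 / m := by
  have hm' : (0 : ℝ) < m := by exact_mod_cast hm
  rw [le_div_iff₀ hm']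
  have h2 : (1 - t) ^ m * (1 + t) ^ m ≤ 1 := by
    rw [← mul_pow]
    apply pow_le_one₀
    · nlinarith
    · nlinarith
  have h3 : 1 + (m : ℝ) * t ≤ (1 + t) ^ m := one_add_mul_le_pow (by linarith) m
  have h4 : 0 ≤ (1 - t) ^ m := pow_nonneg (by linarith) m
  nlinarith

omit [PartialOrder B] [StarOrderedRing B] in
lemma cfc_step {a : B} (hasa : IsSelfAdjoint a) (f : ℝ → ℝ) (hf : Continuous f) (hf0 : f 0 = 0) :
    cfcₙ (fun t : ℝ => (f t - t * f t) - (f t * t - t * f t * t)) a =
      (cfcₙ f a - a * cfcₙ f a) - (cfcₙ f a * a - a * cfcₙ f a * a) := by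
  have hid : cfcₙ (fun t : ℝ => t) a = a := cfcₙ_id' ℝ a
  have e2 : cfcₙ (fun t : ℝ => t * f t) a = a * cfcₙ f a := by
    rw [cfcₙ_mul (fun t : ℝ => t) f a (by fun_prop) rfl hf.continuousOn hf0, hid]
  have e3 : cfcₙ (fun t : ℝ => f t * t) a = cfcₙ f a * a := by
    rw [cfcₙ_mul f (fun t : ℝ => t) a hf.continuousOn hf0 (by fun_prop) rfl, hid]
  have e4 : cfcₙ (fun t : ℝ => t * f t * t) a = a * cfcₙ f a * a := by
    rw [cfcₙ_mul (fun t : ℝ => t * f t) (fun t : ℝ => t) a (by fun_prop) (by simp [hf0])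
      (by fun_prop) rfl, hid, e2]
  rw [cfcₙ_sub (fun t : ℝ => f t - t * f t) (fun t : ℝ => f t * t - t * f t * t) a
      (by fun_prop) (by simp [hf0]) (by fun_prop) (by simp [hf0]),
    cfcₙ_sub f (fun t : ℝ => t * f t) a hf.continuousOn hf0 (by fun_prop) (by simp [hf0]),
    cfcₙ_sub (fun t : ℝ => f t * t) (fun t : ℝ => t * f t * t) a
      (by fun_prop) (by simp [hf0]) (by fun_prop) (by simp [hf0]), e2, e3, e4]

/-- every element of a closed ternary subspace is in the closed span of triple products -/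
lemma mem_triple {F : Submodule ℂ E} (hF : IsTernary B F) {x : E} (hx : x ∈ F) :
    x ∈ (Submodule.span ℂ {w : E | ∃ u ∈ F, ∃ v ∈ F, ∃ t ∈ F,
      w = act u (ip v t : B)}).topologicalClosure := by
  set H := (Submodule.span ℂ {w : E | ∃ u ∈ F, ∃ v ∈ F, ∃ t ∈ F,
      w = act u (ip v t : B)}).topologicalClosure with hH
  -- reduce to norm ≤ 1
  wlog hx1 : ‖x‖ ≤ 1 generalizing x
  · have h1 : ((‖x‖ : ℂ)⁻¹) • x ∈ H := by
      apply this (F.smul_mem _ hx)
      rw [norm_smul, norm_inv, Complex.norm_real, norm_norm]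
      have : 0 < ‖x‖ := by push Not at hx1; linarith
      rw [inv_mul_cancel₀ this.ne']
    have h2 : x = (‖x‖ : ℂ) • (((‖x‖ : ℂ)⁻¹) • x) := by
      have : 0 < ‖x‖ := by push Not at hx1; linarith
      rw [smul_smul, mul_inv_cancel₀ (by exact_mod_cast this.ne'), one_smul]
    rw [h2]
    exact H.smul_mem _ h1
  set a : B := ip x x with ha
  have ha0 : 0 ≤ a := ip_self_nonneg x
  have hasa : IsSelfAdjoint a := star_ip x x
  have ha1 : ‖a‖ ≤ 1 := by
    rw [ha, ← norm_sq]
    exact pow_le_one₀ (norm_nonneg _) hx1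
  have hspec : ∀ t ∈ quasispectrum ℝ a, 0 ≤ t ∧ t ≤ 1 := by
    intro t ht
    refine ⟨quasispectrum_nonneg_of_nonneg a ha0 t ht, ?_⟩
    have h1 := norm_apply_le_norm_cfcₙ (𝕜 := ℝ) (fun t : ℝ => t) a ht
    rw [cfcₙ_id' ℝ a] at h1
    exact (le_abs_self t).trans (h1.trans ha1)
  -- the iteration
  let T : E → E := fun y => y - act y a
  let y : ℕ → E := fun n => T^[n] x
  have hy0 : y 0 = x := rfl
  have hyS : ∀ n, y (n + 1) = y n - act (y n) a := fun n => Function.iterate_succ_apply' T n x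
  have hyF : ∀ n, y n ∈ F := by
    intro n
    induction n with
    | zero => exact hx
    | succ n ih => rw [hyS]; exact F.sub_mem ih (hF.2 _ ih _ hx _ hx)
  have hyH : ∀ n, x - y n ∈ H := by
    intro n
    induction n with
    | zero => rw [hy0, sub_self]; exact H.zero_mem
    | succ n ih =>
      rw [hyS, ← sub_add]
      refine H.add_mem ih ?_
      exact Submodule.le_topologicalClosure _ (Submodule.subset_span ⟨_, hyF n, _, hx, _, hx, rfl⟩)
  have hyip : ∀ n, (ip (y n) (y n) : B) = cfcₙ (fun t : ℝ => t * (1 - t) ^ (2 * n)) a := by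
    intro n
    induction n with
    | zero =>
      simp only [mul_zero, pow_zero, mul_one]
      rw [cfcₙ_id' ℝ a]
      rfl
    | succ n ih =>
      rw [hyS]
      have e1 : (fun t : ℝ => t * (1 - t) ^ (2 * (n + 1))) =
          fun t : ℝ => (t * (1 - t) ^ (2 * n) - t * (t * (1 - t) ^ (2 * n))) -
            ((t * (1 - t) ^ (2 * n)) * t - (t * (t * (1 - t) ^ (2 * n))) * t) := by
        funext t
        ring
      rw [e1, cfc_step hasa (fun t : ℝ => t * (1 - t) ^ (2 * n)) (by fun_prop) (by simp)]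
      set c : B := cfcₙ (fun t : ℝ => t * (1 - t) ^ (2 * n)) a with hc
      simp only [ip_sub_left, ip_sub_right, ip_act_left, ip_act_right, ih, hasa.star_eq,
        sub_mul, mul_assoc]
  have hnorm : ∀ n, 0 < n → ‖y n‖ ^ 2 ≤ 1 / (2 * n) := by
    intro n hn
    rw [norm_sq (B := B), hyip]
    refine norm_cfcₙ_le (fun t ht => ?_)
    obtain ⟨h0, h1⟩ := hspec t ht
    have h2 := scalar_bound h0 h1 (2 * n) (by omega)
    rw [Real.norm_of_nonneg (mul_nonneg h0 (pow_nonneg (by linarith) _))]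
    push_cast at h2
    exact h2
  have hlim : Tendsto y atTop (𝓝 0) := by
    have h1 : Tendsto (fun n : ℕ => ‖y n‖ ^ 2) atTop (𝓝 0) := by
      have h2 : Tendsto (fun n : ℕ => 1 / (2 * (n : ℝ))) atTop (𝓝 0) := by
        have := (tendsto_const_div_atTop_nhds_zero_nat (𝕜 := ℝ) (1 / 2))
        refine this.congr (fun n => ?_)
        rw [div_div]
      refine squeeze_zero' (Eventually.of_forall fun n => by positivity) ?_ h2
      filter_upwards [eventually_gt_atTop 0] with n hn
      exact hnorm n hn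
    have h3 : Tendsto (fun n : ℕ => ‖y n‖) atTop (𝓝 0) := by
      have := h1.sqrt
      rw [Real.sqrt_zero] at this
      refine this.congr (fun n => ?_)
      rw [Real.sqrt_sq (norm_nonneg _)]
    exact tendsto_zero_iff_norm_tendsto_zero.2 h3
  have hlim2 : Tendsto (fun n => x - y n) atTop (𝓝 x) := by
    have := hlim.const_sub x
    simpa using this
  exact (Submodule.isClosed_topologicalClosure _).mem_of_tendsto hlim2 (Eventually.of_forall hyH)

section Entries

variable {F : Submodule ℂ E}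

lemma mem_FBB (hF : IsTernary B F) (hH : TernaryHereditary B F) {x : E} (hx : x ∈ F) {b c : B}
    (hb : b ∈ innerSpan B (⊤ : Submodule ℂ E)) (hc : c ∈ innerSpan B F) :
    act (act x b) c ∈ F := by
  refine closed_ind' F hF.1 (actL (B := B) (act x b)) ?_ hc
  rintro _ ⟨u, hu, v, hv, rfl⟩
  refine closed_ind' F hF.1 ((actR (B := B) (ip u v)).comp (actL (B := B) x)) ?_ hb
  rintro _ ⟨p, -, q, -, rfl⟩
  show act (act x (ip p q : B)) (ip u v) ∈ F
  rw [act_act, ← star_ip q p, ← ip_act_left]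
  exact hH x hx _ v hv

lemma mem_KEB (hF : IsTernary B F) (hH : TernaryHereditary B F) {k : E →L[ℂ] E}
    (hk : k ∈ compacts B F) (x : E) {c : B} (hc : c ∈ innerSpan B F) : k (act x c) ∈ F := by
  refine closed_ind' F hF.1 (ContinuousLinearMap.apply ℂ E (act x c)) ?_ hk
  rintro _ ⟨s, hs, t, ht, rfl⟩
  show act s (ip t (act x c) : B) ∈ F
  rw [ip_act_right, ← act_act]
  exact mem_FBB hF hH hs (ip_mem trivial trivial) hc

lemma mem_KKF (hF : IsTernary B F) (hH : TernaryHereditary B F) {k₁ k : E →L[ℂ] E}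
    (hk₁ : k₁ ∈ compacts B F) (hk : k ∈ compacts B (⊤ : Submodule ℂ E)) {z : E} (hz : z ∈ F) :
    k₁ (k z) ∈ F := by
  refine closed_ind' F hF.1 (ContinuousLinearMap.apply ℂ E (k z)) ?_ hk₁
  rintro _ ⟨s, hs, t, ht, rfl⟩
  show act s (ip t (k z) : B) ∈ F
  refine closed_ind' F hF.1 (((actL (B := B) s).comp (ipR (B := B) t)).comp
    (ContinuousLinearMap.apply ℂ E z)) ?_ hk
  rintro _ ⟨p, -, q, -, rfl⟩
  show act s (ip t (act p (ip q z : B)) : B) ∈ F
  rw [ip_act_right, ← star_ip p t, ← ip_act_left]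
  exact hH s hs _ z hz

lemma mem_BEF (hH : TernaryHereditary B F) {b : B} (hb : b ∈ innerSpan B F) (x : E) {z : E}
    (hz : z ∈ F) : b * ip x z ∈ innerSpan B F := by
  refine closed_ind' (innerSpan B F) (isClosed_innerSpan F)
    ((ContinuousLinearMap.mul ℂ B).flip (ip x z)) ?_ hb
  rintro _ ⟨u, hu, v, hv, rfl⟩
  show (ip u v : B) * ip x z ∈ _
  rw [← ip_act_right]
  exact ip_mem hu (hH v hv x z hz)

lemma mem_BBB (hF : IsTernary B F) (hH : TernaryHereditary B F) {b₁ b b₂ : B}
    (hb₁ : b₁ ∈ innerSpan B F) (hb : b ∈ innerSpan B (⊤ : Submodule ℂ E))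
    (hb₂ : b₂ ∈ innerSpan B F) : b₁ * (b * b₂) ∈ innerSpan B F := by
  refine closed_ind' (innerSpan B F) (isClosed_innerSpan F)
    ((ContinuousLinearMap.mul ℂ B).flip (b * b₂)) ?_ hb₁
  rintro _ ⟨u, hu, v, hv, rfl⟩
  show (ip u v : B) * (b * b₂) ∈ _
  rw [← ip_act_right, ← act_act]
  exact ip_mem hu (mem_FBB hF hH hv hb hb₂)

lemma mem_FKF (hF : IsTernary B F) (hH : TernaryHereditary B F) {x z : E} (hx : x ∈ F)
    (hz : z ∈ F) {k : E →L[ℂ] E} (hk : k ∈ compacts B (⊤ : Submodule ℂ E)) :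
    (ip x (k z) : B) ∈ innerSpan B F := by
  refine closed_ind (innerSpan B F) (isClosed_innerSpan F) (fun x : E => (ip x (k z) : B))
    (continuous_ip_left _) (ip_zero_left _) (fun a b => ip_add_left a b _)
    (fun c a => ⟨star c, ip_smul_left c a _⟩) ?_ (mem_triple hF hx)
  rintro _ ⟨u, hu, v, hv, t, ht, rfl⟩
  show (ip (act u (ip v t : B)) (k z) : B) ∈ _
  rw [ip_act_left, star_ip, ← ip_act_right]
  refine ip_mem ht ?_
  exact mem_KKF hF hH (rankOne_mem hv hu) hk hz

/-- norm of rank one operators -/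
lemma norm_rankOne_le (x y : E) : ‖rankOne B x y‖ ≤ ‖x‖ * ‖y‖ := by
  refine ContinuousLinearMap.opNorm_le_bound _ (by positivity) (fun z => ?_)
  rw [rankOne_apply]
  refine (norm_act_le _ _).trans ?_
  calc ‖x‖ * ‖(ip y z : B)‖ ≤ ‖x‖ * (‖y‖ * ‖z‖) := by gcongr; exact norm_ip_le _ _
    _ = ‖x‖ * ‖y‖ * ‖z‖ := by ring

lemma rankOne_add_right (x y z : E) : rankOne B x (y + z) = rankOne B x y + rankOne B x z := by
  ext w
  simp only [rankOne_apply, ContinuousLinearMap.add_apply, ip_add_left, act_add_right]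

lemma rankOne_add_left (x y z : E) : rankOne B (x + y) z = rankOne B x z + rankOne B y z := by
  ext w
  simp only [rankOne_apply, ContinuousLinearMap.add_apply, act_add_left]

lemma rankOne_smul_right (c : ℂ) (x y : E) : rankOne B x (c • y) = star c • rankOne B x y := by
  ext w
  simp only [rankOne_apply, ContinuousLinearMap.smul_apply, ip_smul_left, act_smul_right]

lemma rankOne_smul_left (c : ℂ) (x y : E) : rankOne B (c • x) y = c • rankOne B x y := by
  ext w
  simp only [rankOne_apply, ContinuousLinearMap.smul_apply, act_smul_left]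

lemma rankOne_zero_right (x : E) : rankOne B x 0 = 0 := by
  have := rankOne_smul_right (B := B) 0 x 0
  simpa using this

lemma rankOne_zero_left (x : E) : rankOne B 0 x = 0 := by
  have := rankOne_smul_left (B := B) 0 0 x
  simpa using this

lemma continuous_rankOne_right (x : E) : Continuous (fun y : E => rankOne B x y) := by
  rw [Metric.continuous_iff]
  intro y ε hε
  refine ⟨ε / (‖x‖ + 1), by positivity, fun z hz => ?_⟩
  have h1 : rankOne B x z - rankOne B x y = rankOne B x (z - y) := by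
    have := rankOne_add_right (B := B) x (z - y) y
    rw [sub_add_cancel] at this
    rw [this]; abel
  rw [dist_eq_norm, h1]
  refine (norm_rankOne_le _ _).trans_lt ?_
  rw [dist_eq_norm, lt_div_iff₀ (by positivity)] at hz
  nlinarith [norm_nonneg x, norm_nonneg (z - y)]

lemma continuous_rankOne_left (y : E) : Continuous (fun x : E => rankOne B x y) := by
  rw [Metric.continuous_iff]
  intro x ε hε
  refine ⟨ε / (‖y‖ + 1), by positivity, fun z hz => ?_⟩
  have h1 : rankOne B z y - rankOne B x y = rankOne B (z - x) y := by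
    have := rankOne_add_left (B := B) (z - x) x y
    rw [sub_add_cancel] at this
    rw [this]; abel
  rw [dist_eq_norm, h1]
  refine (norm_rankOne_le _ _).trans_lt ?_
  rw [dist_eq_norm, lt_div_iff₀ (by positivity)] at hz
  nlinarith [norm_nonneg y, norm_nonneg (z - x)]

lemma mem_FBFs (hF : IsTernary B F) (hH : TernaryHereditary B F) {z x : E} (hz : z ∈ F)
    (hx : x ∈ F) {b : B} (hb : b ∈ innerSpan B (⊤ : Submodule ℂ E)) :
    rankOne B (act z b) x ∈ compacts B F := by
  refine closed_ind (compacts B F) (isClosed_compacts F) (fun x : E => rankOne B (act z b) x)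
    (continuous_rankOne_right _) (rankOne_zero_right _) (fun a b => rankOne_add_right _ a b)
    (fun c a => ⟨star c, rankOne_smul_right c _ a⟩) ?_ (mem_triple hF hx)
  rintro _ ⟨u, hu, v, hv, t, ht, rfl⟩
  have h1 : rankOne B (act z b) (act u (ip v t : B)) =
      rankOne B (act (act z b) (ip t v : B)) u := by
    ext y
    rw [rankOne_apply, rankOne_apply, ip_act_left, star_ip, ← act_act]
  show rankOne B (act z b) (act u (ip v t : B)) ∈ _
  rw [h1]
  exact rankOne_mem (mem_FBB hF hH hz hb (ip_mem ht hv)) hu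

lemma mem_F_KEs (hH : TernaryHereditary B F) {z : E} (hz : z ∈ F) (x : E) {k : E →L[ℂ] E}
    (hk : k ∈ compacts B F) : rankOne B z (k x) ∈ compacts B F := by
  refine closed_ind (compacts B F) (isClosed_compacts F) (fun k : E →L[ℂ] E => rankOne B z (k x))
    ((continuous_rankOne_right z).comp (ContinuousLinearMap.apply ℂ E x).continuous)
    (rankOne_zero_right _) (fun a b => rankOne_add_right _ _ _)
    (fun c a => ⟨star c, rankOne_smul_right c _ _⟩) ?_ hk
  rintro _ ⟨s, hs, t, ht, rfl⟩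
  have h1 : rankOne B z (act s (ip t x : B)) = rankOne B (act z (ip x t : B)) s := by
    ext y
    rw [rankOne_apply, rankOne_apply, ip_act_left, star_ip, ← act_act]
  show rankOne B z (act s (ip t x : B)) ∈ _
  rw [h1]
  exact rankOne_mem (hH z hz x t ht) hs

lemma mem_KE_Fs (hH : TernaryHereditary B F) {x : E} (hx : x ∈ F) (z : E) {k : E →L[ℂ] E}
    (hk : k ∈ compacts B F) : rankOne B (k z) x ∈ compacts B F := by
  refine closed_ind (compacts B F) (isClosed_compacts F) (fun k : E →L[ℂ] E => rankOne B (k z) x)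
    ((continuous_rankOne_left x).comp (ContinuousLinearMap.apply ℂ E z).continuous)
    (rankOne_zero_left _) (fun a b => rankOne_add_left _ _ _)
    (fun c a => ⟨c, rankOne_smul_left c _ _⟩) ?_ hk
  rintro _ ⟨s, hs, t, ht, rfl⟩
  have h1 : rankOne B (act s (ip t z : B)) x = rankOne B s (act x (ip z t : B)) := by
    ext y
    rw [rankOne_apply, rankOne_apply, ip_act_left, star_ip, ← act_act]
  show rankOne B (act s (ip t z : B)) x ∈ _
  rw [h1]
  exact rankOne_mem hs (hH x hx z t ht)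

lemma mem_KKK (hF : IsTernary B F) (hH : TernaryHereditary B F) {k₁ k k₂ : E →L[ℂ] E}
    (hk₁ : k₁ ∈ compacts B F) (hk : k ∈ compacts B (⊤ : Submodule ℂ E))
    (hk₂ : k₂ ∈ compacts B F) : k₁.comp (k.comp k₂) ∈ compacts B F := by
  refine closed_ind' (compacts B F) (isClosed_compacts F)
    (((ContinuousLinearMap.compL ℂ E E E) (k₁.comp k))) ?_ hk₂
  rintro _ ⟨u, hu, v, hv, rfl⟩
  have h1 : (k₁.comp k).comp (rankOne B u v) = rankOne B (k₁ (k u)) v := by
    ext y
    show k₁ (k (act u (ip v y : B))) = act (k₁ (k u)) (ip v y : B)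
    rw [compacts_act hk, compacts_act hk₁]
  show (k₁.comp k).comp (rankOne B u v) ∈ _
  rw [h1]
  exact rankOne_mem (mem_KKF hF hH hk₁ hk hu) hv

end Entries

/-- **MP_7e9539_an, Q1 (proved).** For every C*-algebra `B`, every Hilbert `B`-module `E` and every
closed ternary subspace `F` of `E`: if `F` is ternary hereditary in `E`, then `F` is linking
hereditary in `E`. -/
theorem result (B : Type u) (E : Type v) [NonUnitalCStarAlgebra B] [PartialOrder B]
    [StarOrderedRing B] [NormedAddCommGroup E] [NormedSpace ℂ E] [CompleteSpace E]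
    [HilbertModule B E] (F : Submodule ℂ E) (hF : IsTernary B F)
    (hH : TernaryHereditary B F) : LinkingHereditary B F := by
  rintro S ⟨b₁, hb₁, x₁, hx₁, z₁, hz₁, k₁, hk₁, hS⟩ T ⟨b, hb, x, -, z, -, k, hk, hT⟩
    R ⟨b₂, hb₂, x₂, hx₂, z₂, hz₂, k₂, hk₂, hR⟩
  obtain ⟨k', hk', hkk'⟩ := exists_adjoint hk
  obtain ⟨k₂', hk₂', hkk₂'⟩ := exists_adjoint hk₂
  have ha : ∀ x y : E, (ip (k' x) y : B) = ip x (k y) := by
    intro x y; rw [← star_ip, ← hkk', star_ip]
  have ha₂ : ∀ x y : E, (ip (k₂' x) y : B) = ip x (k₂ y) := by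
    intro x y; rw [← star_ip, ← hkk₂', star_ip]
  refine ⟨b₁ * (b * b₂) + b₁ * ip x z₂ + ip x₁ (act z b₂) + ip x₁ (k z₂), ?_,
    act (act x₂ (star b)) (star b₁) + k₂' (act x (star b₁)) + act x₂ (ip z x₁ : B) +
      k₂' (k' x₁), ?_,
    act (act z₁ b) b₂ + act z₁ (ip x z₂ : B) + k₁ (act z b₂) + k₁ (k z₂), ?_,
    rankOne B (act z₁ b) x₂ + rankOne B z₁ (k₂' x) + rankOne B (k₁ z) x₂ + k₁.comp (k.comp k₂),
    ?_, ?_⟩
  · refine Submodule.add_mem _ (Submodule.add_mem _ (Submodule.add_mem _ ?_ ?_) ?_) ?_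
    · exact mem_BBB hF hH hb₁ hb hb₂
    · exact mem_BEF hH hb₁ x hz₂
    · rw [ip_act_right]
      have h1 := star_mem_innerSpan (mem_BEF hH (star_mem_innerSpan hb₂) z hx₁)
      rw [star_mul, star_star, star_ip] at h1
      exact h1
    · exact mem_FKF hF hH hx₁ hz₂ hk
  · refine Submodule.add_mem _ (Submodule.add_mem _ (Submodule.add_mem _ ?_ ?_) ?_) ?_
    · exact mem_FBB hF hH hx₂ (star_mem_innerSpan hb) (star_mem_innerSpan hb₁)
    · exact mem_KEB hF hH hk₂' x (star_mem_innerSpan hb₁)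
    · exact hH x₂ hx₂ z x₁ hx₁
    · exact mem_KKF hF hH hk₂' hk' hx₁
  · refine Submodule.add_mem _ (Submodule.add_mem _ (Submodule.add_mem _ ?_ ?_) ?_) ?_
    · exact mem_FBB hF hH hz₁ hb hb₂
    · exact hH z₁ hz₁ x z₂ hz₂
    · exact mem_KEB hF hH hk₁ z hb₂
    · exact mem_KKF hF hH hk₁ hk hz₂
  · refine Submodule.add_mem _ (Submodule.add_mem _ (Submodule.add_mem _ ?_ ?_) ?_) ?_
    · exact mem_FBFs hF hH hz₁ hx₂ hb
    · exact mem_F_KEs hH hz₁ x hk₂'
    · exact mem_KE_Fs hH hx₂ z hk₁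
    · exact mem_KKK hF hH hk₁ hk hk₂
  · intro p
    obtain ⟨hR1, hR2⟩ := hR p
    obtain ⟨hT1, hT2⟩ := hT (R p)
    obtain ⟨hS1, hS2⟩ := hS (T (R p))
    constructor
    · show ((S (T (R p))).1 : B) = _
      rw [hS1, hT1, hT2, hR1, hR2]
      simp only [ip_add_left, ip_add_right, ip_act_left, ip_act_right, ha, ha₂, map_add,
        act_add_right, compacts_act hk, mul_add, add_mul, star_star, star_ip, mul_assoc]
      abel
    · show (S (T (R p))).2 = _
      rw [hS2, hT1, hT2, hR1, hR2]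
      simp only [ContinuousLinearMap.add_apply, rankOne_apply, ip_add_right, ip_act_right,
        map_add, act_add_right, act_add_left, compacts_act hk, compacts_act hk₁, act_act, ha₂,
        ContinuousLinearMap.comp_apply, mul_add, mul_assoc]
      abel

end Proof

end Pool.Agent.Results.MP_7e9539_an.TernaryIsLinking
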